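import Pool.Agent.Helper94.AXW.U0
import Pool.Agent.Helper94.AXG.ZDefs
import Pool.Agent.Helper94.AXG.G3B

/-! # AXU-U8: the mixed functions -/

namespace Pool.Agent.Helper94.AXW

open Filter Topology Pool.Agent.Helper94.AXG

/-- the value of the mixed polynomial with the coefficients `u` -/
noncomputable def gaV {k d : ℕ} (K0 : Finset (Fin k)) (u : (Fin k → Fin (d + 1)) → ℂ) (x : Fin k → ℂ) :
    ℂ := pol u (fun i => VV K0 i (x i))

/-- the function `gaV(P) + ∑_s a^(s+1) L_s` at the point `x₀ + B z`, parameters `bs + b` -/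
noncomputable def gV {k D d l : ℕ} (K0 : Finset (Fin k)) (bs : Par k D d l → ℂ) (x₀ : Fin k → ℂ)
    (B : Matrix (Fin k) (Fin k) ℤ) (a : ℕ) (b : Par k D d l → ℂ) (z : Fin k → ℂ) : ℂ :=
  gaV K0 (fun ν => bs (Sum.inr (Sum.inr ν)) + b (Sum.inr (Sum.inr ν))) (fun i => x₀ i + mv B z i) +
    ∑ s : Fin l, (a : ℂ) ^ ((s : ℕ) + 1) *
      pol (fun ν => bs (Sum.inr (Sum.inl (s, ν))) + b (Sum.inr (Sum.inl (s, ν))))
        (fun i => x₀ i + mv B z i)

/-- the linear form `w ↦ (B z) i` -/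
private noncomputable def u8_L {ι : Type} {k : ℕ} (B : Matrix (Fin k) (Fin k) ℤ) (i : Fin k) :
    ((ι ⊕ Fin k) → ℂ) →ₗ[ℂ] ℂ :=
  ∑ j, (B i j : ℂ) • LinearMap.proj (Sum.inr j)

private theorem u8_L_apply {ι : Type} {k : ℕ} (B : Matrix (Fin k) (Fin k) ℤ) (i : Fin k)
    (w : (ι ⊕ Fin k) → ℂ) : u8_L B i w = mv B (fun j => w (Sum.inr j)) i := by
  simp [u8_L, mv, LinearMap.sum_apply]

private theorem u8_mv {ι : Type} [Fintype ι] {k : ℕ} (B : Matrix (Fin k) (Fin k) ℤ) (i : Fin k)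
    (x : ℂ) : CA (fun w : (ι ⊕ Fin k) → ℂ => x + mv B (fun j => w (Sum.inr j)) i) := by
  have hx : AnalyticAt ℂ (fun w : ℂ => x + w) 0 := by fun_prop
  have h := CA_comp_form hx (u8_L (ι := ι) B i)
  simpa only [u8_L_apply] using h

private theorem u8_Vmv {ι : Type} [Fintype ι] {k : ℕ} (K0 : Finset (Fin k))
    (B : Matrix (Fin k) (Fin k) ℤ) (i : Fin k) (x : ℂ) :
    CA (fun w : (ι ⊕ Fin k) → ℂ => VV K0 i (x + mv B (fun j => w (Sum.inr j)) i)) := by
  have hx : AnalyticAt ℂ (fun w => VV K0 i (x + w)) 0 := by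
    have h2 : Differentiable ℂ (fun w => VV K0 i (x + w)) :=
      (VV_differentiable K0 i).comp (by fun_prop)
    exact h2.analyticAt 0
  have h := CA_comp_form hx (u8_L (ι := ι) B i)
  simpa only [u8_L_apply] using h

theorem CA2_gV {k D d l : ℕ} (K0 : Finset (Fin k)) (bs : Par k D d l → ℂ) (x₀ : Fin k → ℂ)
    (B : Matrix (Fin k) (Fin k) ℤ) (a : ℕ) : CA2 (gV K0 bs x₀ B a) := by
  unfold CA2 gV gaV pol
  refine CA_add ?_ ?_
  · refine CA_sum _ fun ν _ => CA_mul (CA_add (CA_const _) (CA_coord _)) ?_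
    exact CA_prod _ fun i _ => CA_pow (u8_Vmv K0 B i (x₀ i)) _
  · refine CA_sum _ fun s _ => CA_mul (CA_const _) ?_
    refine CA_sum _ fun ν _ => CA_mul (CA_add (CA_const _) (CA_coord _)) ?_
    exact CA_prod _ fun i _ => CA_pow (u8_mv B i (x₀ i)) _

end Pool.Agent.Helper94.AXW
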