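import Pool.Agent.Helper94.AXW.U6
import Pool.Agent.Helper94.AXW.U7
import Pool.Agent.Helper94.AXW.U10

/-! # AXU-U11: no large families -/

namespace Pool.Agent.Helper94.AXW

open MvPolynomial Filter Topology Pool.Agent.Helper94.AXG Pool.Agent.Helper49.AXQ

/-- the admissible points: `a_i ≤ q` and the condition `ND` on `K0` -/
def AdmU {k : ℕ} (K0 : Finset (Fin k)) (x : Pt k) : Prop :=
  1 ≤ x.1 ∧ (∀ i, x.2 i ≤ x.1) ∧ ND K0 x.1 (fun i => ((x.2 i : ℕ) : ℤ))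

/-- `P` vanishes at the point, and no substitution of the values of the variables outside of a nonempty
subset of `K0` gives the polynomial `0` -/
def ZrU {k : ℕ} (K0 : Finset (Fin k)) (P : MvPolynomial (Fin k) ℂ) (x : Pt k) : Prop :=
  eval (fun i => VV K0 i (xp x i)) P = 0 ∧ ∀ J : Finset (Fin k), J ⊆ K0 → J.Nonempty →
    aeval (fun i => open scoped Classical in if i ∈ J then (X i : MvPolynomial (Fin k) ℂ) else
      C (VV K0 i (xp x i))) P ≠ 0

theorem scaleU {k : ℕ} (K0 : Finset (Fin k)) (P : MvPolynomial (Fin k) ℂ) :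
    ∃ c : ℂ, c ≠ 0 ∧ (∀ ν, ‖coeff ν (C c * P)‖ ≤ 1) ∧ ∀ x : Pt k, ZrU K0 P x → ZrU K0 (C c * P) x := by
  have hZ : ∀ c : ℂ, c ≠ 0 → ∀ x : Pt k, ZrU K0 P x → ZrU K0 (C c * P) x := by
    intro c hc x hx
    refine ⟨by rw [map_mul, hx.1, mul_zero], fun J hJ hJ' => ?_⟩
    have h1 := hx.2 J hJ hJ'
    rw [map_mul, MvPolynomial.aeval_C]
    refine mul_ne_zero ?_ h1
    change (C c : MvPolynomial (Fin k) ℂ) ≠ 0
    simpa using hc
  by_cases hP : P = 0
  · exact ⟨1, one_ne_zero, by simp [hP], hZ 1 one_ne_zero⟩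
  have hs : P.support.Nonempty := by
    rw [Finset.nonempty_iff_ne_empty]
    intro h0
    exact hP (MvPolynomial.support_eq_empty.1 h0)
  obtain ⟨ν₀, hν₀, hmax⟩ := Finset.exists_max_image P.support (fun ν => ‖coeff ν P‖) hs
  have hc : coeff ν₀ P ≠ 0 := MvPolynomial.mem_support_iff.1 hν₀
  refine ⟨(coeff ν₀ P)⁻¹, inv_ne_zero hc, fun ν => ?_, hZ _ (inv_ne_zero hc)⟩
  rw [MvPolynomial.coeff_C_mul, norm_mul, norm_inv]
  have hpos : 0 < ‖coeff ν₀ P‖ := norm_pos_iff.2 hc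
  by_cases hν : ν ∈ P.support
  · have := hmax ν hν
    rw [inv_mul_le_iff₀ hpos]
    simpa using this
  · rw [MvPolynomial.notMem_support_iff.1 hν]
    simp

private theorem u11_aux {r n d : ℕ} (K0 : Finset (Fin (r + n))) {Q : ℕ → ℕ} (hQ : Tendsto Q atTop atTop)
    {T : ℕ → Finset (Pt (r + n))} {A B : Matrix (Fin (r + n)) (Fin (r + n)) ℤ}
    {F : Fin (r + n) → ℕ → MvPolynomial (Fin (r + n)) ℂ}
    {l : ℕ} {L : Fin l → ℕ → MvPolynomial (Fin (r + n)) ℂ}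
    (hA : Alg Q T r (Nat.le_add_right r n) A B F l L)
    (hD : ∀ D : ℕ, ∀ᶠ n' in (UF : Filter ℕ), ∀ ψ : MvPolynomial (Fin (r + n)) ℂ, ψ.totalDegree ≤ D →
      Dich (rows (Nat.le_add_right r n) A) (IdL L n') ψ)
    (P : ℕ → MvPolynomial (Fin (r + n)) ℂ) (hP : ∀ i, (P i).totalDegree ≤ d)
    (hP1 : ∀ i, ∀ ν, ‖coeff ν (P i)‖ ≤ 1)
    (hinj : ∀ i, Set.InjOn (fun (x : Pt (r + n)) (j : K0) => xp x j) (T i : Set (Pt (r + n))))
    (hT : ∀ i, ∀ x ∈ T i, AdmU K0 x ∧ x.1 ≤ Q i ∧ ZrU K0 (P i) x) : False := by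
  classical
  have h1 : ∀ i, ∀ x ∈ T i, 1 ≤ x.1 ∧ x.1 ≤ Q i ∧ ∀ j, x.2 j ≤ x.1 := fun i x hx =>
    ⟨(hT i x hx).1.1, (hT i x hx).2.1, (hT i x hx).1.2.1⟩
  have hgaV : ∀ i (x : Fin (r + n) → ℂ), gaV K0 (cf d (P i)) x = eval (fun j => VV K0 j (x j)) (P i) :=
    fun i x => pol_cf (hP i) _
  have h2 : ∀ i, ∀ x ∈ T i, gaV K0 (cf d (P i)) (xp x) = 0 := fun i x hx => by
    rw [hgaV]
    exact (hT i x hx).2.2.1
  have h3 := over_openU K0 hQ hA h1 d P hP1 h2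
  obtain ⟨i, h4, h5, h6, h7, h8, h9⟩ := (h3.and (hA.intg.and (hA.dich.and (hA.Lvan.and
    ((hA.large.card hQ 2).and (hD d)))))).exists
  obtain ⟨Δ, hΔ, hne, hpts⟩ := h4
  obtain ⟨x, hx, x', hx', hxx⟩ := Finset.one_lt_card.1 (show 1 < (T i).card by omega)
  have hvan : ∀ w ∈ T i, ∀ f ∈ IdL L i, eval (xp w) f = 0 := by
    intro w hw f hf
    have hle : IdL L i ≤ RingHom.ker (eval (xp w)) := by
      refine Ideal.span_le.2 ?_
      rintro _ ⟨j, rfl⟩
      exact (RingHom.mem_ker (f := eval (xp w))).2 (h7 j w hw)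
    exact (RingHom.mem_ker (f := eval (xp w))).1 (hle hf)
  have hcast : (fun j => (((x.2 j : ℕ) : ℤ) : ℂ) / ((x.1 : ℕ) : ℂ)) = xp x := by
    funext j
    unfold xp
    rw [Int.cast_natCast]
  obtain ⟨J, hJK, hJc, hJ0⟩ := level_finalU (rows (Nat.le_add_right r n) A) (IdL L i) h5 h6 h9 hΔ hne K0
    (P i) (hP i) (fun z hz => by
      obtain ⟨y, e1, e2, e3⟩ := hpts z hz
      exact ⟨y, e1, e2, by rw [← hgaV]; exact e3⟩)
    x.1 (hT i x hx).1.1 (fun j => ((x.2 j : ℕ) : ℤ)) (hT i x hx).1.2.2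
    (fun f hf => by rw [hcast]; exact hvan x hx f hf)
  rcases J.eq_empty_or_nonempty with hJ | hJ
  · apply hxx
    apply hinj i hx hx'
    funext j
    obtain ⟨c, hc⟩ := hJc j j.2 (by rw [hJ]; exact Finset.notMem_empty _)
    have e1 := hvan x hx _ hc
    have e2 := hvan x' hx' _ hc
    rw [map_sub, eval_X, eval_C, sub_eq_zero] at e1 e2
    change xp x j = xp x' j
    rw [e1, e2]
  · refine (hT i x hx).2.2.2 J hJK hJ ?_
    rw [← hJ0]
    congr 2

/-- no large families -/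
theorem no_largeU {k d : ℕ} (K0 : Finset (Fin k)) {Q : ℕ → ℕ} (hQ : Tendsto Q atTop atTop)
    (P : ℕ → MvPolynomial (Fin k) ℂ) (hP : ∀ n, (P n).totalDegree ≤ d) (S : ℕ → Finset (Pt k))
    (hinj : ∀ n, Set.InjOn (fun (x : Pt k) (j : K0) => xp x j) (S n : Set (Pt k)))
    (hS : ∀ n, ∀ x ∈ S n, AdmU K0 x ∧ x.1 ≤ Q n ∧ ZrU K0 (P n) x) : ¬ Large Q S := by
  intro hL
  choose c hc0 hc1 hc2 using fun n => scaleU K0 (P n)
  have hinj' : ∀ n, Set.InjOn xp (S n : Set (Pt k)) := fun n x hx y hy h =>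
    hinj n hx hy (by
      funext j
      change xp x j = xp y j
      rw [h])
  obtain ⟨T, r, hrk, A, B, F, l, L, hTS, hA, hD⟩ := alg_mainU Q hQ S hL hinj'
  obtain ⟨n, rfl⟩ := Nat.exists_eq_add_of_le hrk
  refine u11_aux (d := d) K0 hQ hA hD (fun i => C (c i) * P i) (fun i => ?_) (fun i => hc1 i)
    (fun i => (hinj i).mono (by exact_mod_cast hTS i)) (fun i x hx => ?_)
  · refine (totalDegree_mul _ _).trans ?_
    rw [totalDegree_C, zero_add]
    exact hP i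
  · have h1 := hS i x (hTS i hx)
    exact ⟨h1.1, h1.2.1, hc2 i x h1.2.2⟩

/-- the uniform theorem -/
theorem uniformU {k : ℕ} (K0 : Finset (Fin k)) (d : ℕ) {ε : ℝ} (hε : 0 < ε) : ∃ C : ℝ, ∀ Q : ℕ, 1 ≤ Q →
    ∀ P : MvPolynomial (Fin k) ℂ, P.totalDegree ≤ d →
      ∀ T : Finset (Pt k), Set.InjOn (fun (x : Pt k) (j : K0) => xp x j) (T : Set (Pt k)) →
        (∀ x ∈ T, AdmU K0 x ∧ x.1 ≤ Q ∧ ZrU K0 P x) → (T.card : ℝ) ≤ C * (Q : ℝ) ^ ε := by
  classical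
  by_contra hcon
  push Not at hcon
  choose Q hQ1 P hP T hinj hT hcard using fun n : ℕ => hcon (n : ℝ)
  have hb : ∀ n, (T n).card ≤ (Q n + 1) * (Q n + 1) ^ k := by
    intro n
    have h1 : T n ⊆ Finset.range (Q n + 1) ×ˢ
        Fintype.piFinset (fun _ : Fin k => Finset.range (Q n + 1)) := by
      intro x hx
      obtain ⟨⟨_, h2, _⟩, h3, _⟩ := hT n x hx
      rw [Finset.mem_product, Finset.mem_range, Fintype.mem_piFinset]
      refine ⟨by omega, fun i => ?_⟩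
      rw [Finset.mem_range]
      have h4 := h2 i
      omega
    refine (Finset.card_le_card h1).trans (le_of_eq ?_)
    rw [Finset.card_product, Finset.card_range, Fintype.card_piFinset, Finset.prod_const,
      Finset.card_range, Finset.card_univ, Fintype.card_fin]
  have hone : ∀ n, (1 : ℝ) ≤ (Q n : ℝ) ^ ε := by
    intro n
    exact Real.one_le_rpow (by exact_mod_cast hQ1 n) hε.le
  have hn : ∀ n, n < (Q n + 1) * (Q n + 1) ^ k := by
    intro n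
    have h1 : (n : ℝ) < ((T n).card : ℝ) := by
      have h2 : (n : ℝ) * 1 ≤ (n : ℝ) * (Q n : ℝ) ^ ε :=
        mul_le_mul_of_nonneg_left (hone n) (Nat.cast_nonneg n)
      linarith [hcard n]
    have h2 : n < (T n).card := by exact_mod_cast h1
    exact h2.trans_le (hb n)
  have hQt : Tendsto Q atTop atTop := by
    rw [tendsto_atTop]
    intro b
    filter_upwards [eventually_ge_atTop ((b + 1) * (b + 1) ^ k)] with n hn'
    by_contra hlt
    push Not at hlt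
    have h1 : (Q n + 1) * (Q n + 1) ^ k ≤ (b + 1) * (b + 1) ^ k :=
      Nat.mul_le_mul (by omega) (Nat.pow_le_pow_left (by omega) k)
    have h2 := hn n
    omega
  refine no_largeU K0 hQt P hP T hinj hT ⟨ε, hε, ?_⟩
  have h0 : ∀ᶠ n in (UF : Filter ℕ), 1 ≤ n := Nat.hyperfilter_le_atTop (eventually_ge_atTop 1)
  filter_upwards [h0] with n hn1
  have h1 : (1 : ℝ) * (Q n : ℝ) ^ ε ≤ (n : ℝ) * (Q n : ℝ) ^ ε :=
    mul_le_mul_of_nonneg_right (by exact_mod_cast hn1) (by linarith [hone n])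
  linarith [hcard n]

end Pool.Agent.Helper94.AXW
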