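import Pool.Agent.Helper94.AXW.U14

/-! # AXU-U15: the points are admissible zeros -/

namespace Pool.Agent.Helper94.AXW

open MvPolynomial Pool.Agent.Helper94.AXG Pool.Agent.Helper49.AXQ

/-- the variables which enter through `U` -/
def KK0 (k N : ℕ) : Finset (Fin (k + N)) := Finset.univ.map (Fin.castAddEmb N)

theorem castAdd_mem (k N : ℕ) (i : Fin k) : Fin.castAdd N i ∈ KK0 k N :=
  Finset.mem_map.2 ⟨i, Finset.mem_univ i, rfl⟩

theorem natAdd_not_mem (k N : ℕ) (j : Fin N) : Fin.natAdd k j ∉ KK0 k N := by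
  intro h
  obtain ⟨i, -, hi⟩ := Finset.mem_map.1 h
  have h1 := congrArg Fin.val hi
  have h2 : ((Fin.castAddEmb N) i : Fin (k + N)).val = i.val := rfl
  rw [h2] at h1
  have h3 : (Fin.natAdd k j).val = k + j.val := rfl
  rw [h3] at h1
  have := i.2
  omega

theorem mem_KK0 {k N : ℕ} {s : Fin (k + N)} (h : s ∈ KK0 k N) : ∃ i : Fin k, Fin.castAdd N i = s := by
  obtain ⟨i, -, hi⟩ := Finset.mem_map.1 h
  exact ⟨i, hi⟩

theorem xp_ptT0 {k : ℕ} {r : Fin k → ℚ} (h : ∀ i, 0 ≤ r i) : xp (ptT r) = fun i => (r i : ℂ) := by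
  funext i
  exact en_divC (qT_pos r) (h i) (den_dvd r i)

theorem two_rho {m k d Q : ℕ} {r : Fin k → ℚ} {R : MvPolynomial (Fin m ⊕ Fin k) ℤ}
    (hR : SmT d Q R) (ν : EE m k d) :
    (2 : ℂ) * ((rho d r R (Fin.natAdd k (eE m k d ν)) : ℚ) : ℂ) - 1 =
      ((coeff (exE ν) R : ℤ) : ℂ) / (MR d R : ℂ) := by
  have h1 := MR_pos hR
  have h2 : (MR d R : ℂ) ≠ 0 := Nat.cast_ne_zero.2 (by omega)
  rw [rho_right]
  push_cast
  field_simp
  ring

theorem zrU_of_min {m k d Q : ℕ} {θ : Fin m → ℂ} {r : Fin k → ℚ} {R : MvPolynomial (Fin m ⊕ Fin k) ℤ}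
    (hr : ∀ i, Rat01 Q (r i)) (hR : SmT d Q R)
    (h0 : aeval (Sum.elim θ (fun i : Fin k => Complex.Gamma ((r i : ℚ) : ℂ))) R = 0)
    (hmin : ∀ J' : Finset (Fin k), J'.Nonempty → ¬ ∃ R' : MvPolynomial (Fin m ⊕ Fin k) ℤ, SmT d Q R' ∧
      (∀ i ∈ J', (Sum.inr i : Fin m ⊕ Fin k) ∉ R'.vars) ∧
      aeval (Sum.elim θ (fun i : Fin k => Complex.Gamma ((r i : ℚ) : ℂ))) R' = 0) :
    ZrU (KK0 k (NE m k d)) (Pth d θ) (ptT (rho d r R)) := by
  classical
  have hG : ∀ i, Complex.Gamma ((r i : ℚ) : ℂ) ≠ 0 := by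
    intro i
    refine Complex.Gamma_ne_zero_of_re_pos ?_
    have h1 : ((r i : ℚ) : ℂ) = (((r i : ℚ) : ℝ) : ℂ) := by push_cast; rfl
    rw [h1, Complex.ofReal_re]
    exact_mod_cast (hr i).1
  have hx : xp (ptT (rho d r R)) = fun s => ((rho d r R s : ℚ) : ℂ) :=
    xp_ptT0 fun s => (rho_range hr hR s).1
  have hVl : ∀ i : Fin k, VV (KK0 k (NE m k d)) (Fin.castAdd _ i) (xp (ptT (rho d r R)) (Fin.castAdd _ i)) =
      (Complex.Gamma ((r i : ℚ) : ℂ))⁻¹ := by
    intro i
    rw [VV_mem (castAdd_mem _ _ i), hx]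
    simp only
    rw [rho_left]
    rfl
  have hVr : ∀ ν : EE m k d, (2 : ℂ) * VV (KK0 k (NE m k d)) (Fin.natAdd k (eE m k d ν))
      (xp (ptT (rho d r R)) (Fin.natAdd k (eE m k d ν))) - 1 =
        ((coeff (exE ν) R : ℤ) : ℂ) / (MR d R : ℂ) := by
    intro ν
    rw [VV_not (natAdd_not_mem _ _ _), hx]
    exact two_rho hR ν
  refine ⟨?_, ?_⟩
  · have h1 : eval (fun i => VV (KK0 k (NE m k d)) i (xp (ptT (rho d r R)) i)) (Pth d θ) =
        ∑ ν : EE m k d, (∏ j, θ j ^ (ν (Sum.inl j) : ℕ)) * (((coeff (exE ν) R : ℤ) : ℂ) / (MR d R : ℂ)) *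
          ∏ i : Fin k, (Complex.Gamma ((r i : ℚ) : ℂ))⁻¹ ^ (d - (ν (Sum.inr i) : ℕ)) := by
      unfold Pth
      rw [map_sum]
      refine Finset.sum_congr rfl fun ν _ => ?_
      simp only [map_mul, map_sub, map_one, map_prod, map_pow, eval_C, eval_X]
      rw [hVr ν]
      congr 1
      refine Finset.prod_congr rfl fun i _ => ?_
      rw [hVl i]
    rw [h1, key_sum hR.2.1 θ _ hG, h0, mul_zero]
  · intro J hJK hJ hcon
    obtain ⟨J', hJ'⟩ : ∃ J' : Finset (Fin k), J' = Finset.univ.filter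
        (fun i => Fin.castAdd (NE m k d) i ∈ J) := ⟨_, rfl⟩
    have hmem : ∀ i, i ∈ J' ↔ Fin.castAdd (NE m k d) i ∈ J := fun i => by rw [hJ']; simp
    have hJne : J'.Nonempty := by
      obtain ⟨s, hs⟩ := hJ
      obtain ⟨i, rfl⟩ := mem_KK0 (hJK hs)
      exact ⟨i, (hmem i).2 hs⟩
    obtain ⟨I, hI⟩ : ∃ I : Finset (Fin m ⊕ Fin k), I = J'.image Sum.inr := ⟨_, rfl⟩
    have hIl : ∀ j, (Sum.inl j : Fin m ⊕ Fin k) ∉ I := fun j => by rw [hI]; simp
    have hIr : ∀ i, (Sum.inr i : Fin m ⊕ Fin k) ∈ I ↔ i ∈ J' := fun i => by rw [hI]; simp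
    obtain ⟨w, hw⟩ : ∃ w : Fin m ⊕ Fin k → ℂ, w = Sum.elim θ
        (fun i : Fin k => Complex.Gamma ((r i : ℚ) : ℂ)) := ⟨_, rfl⟩
    have hzero : aeval (fun o => if o ∈ I then (X o : MvPolynomial (Fin m ⊕ Fin k) ℂ) else C (w o)) R =
        0 := by
      refine funext_set (fun _ => ({0}ᶜ : Set ℂ)) (fun _ => ?_) (fun x hx' => ?_)
      · exact infinite_of_mem_nhds (1 : ℂ) (isOpen_compl_singleton.mem_nhds one_ne_zero)
      · rw [map_zero]
        have hx0 : ∀ o, x o ≠ 0 := fun o => hx' o (Set.mem_univ o)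
        obtain ⟨z, hz⟩ : ∃ z : Fin k → ℂ, z = fun i => if i ∈ J' then x (Sum.inr i) else
          Complex.Gamma ((r i : ℚ) : ℂ) := ⟨_, rfl⟩
        have hz0 : ∀ i, z i ≠ 0 := by
          intro i
          rw [hz]
          simp only
          split_ifs
          · exact hx0 _
          · exact hG i
        have e1 : eval x (aeval (fun o => if o ∈ I then (X o : MvPolynomial (Fin m ⊕ Fin k) ℂ) else
            C (w o)) R) = aeval (Sum.elim θ z) R := by
          have e : ((eval x : MvPolynomial (Fin m ⊕ Fin k) ℂ →+* ℂ).comp (aeval (fun o => if o ∈ I then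
              (X o : MvPolynomial (Fin m ⊕ Fin k) ℂ) else C (w o)) :
                MvPolynomial (Fin m ⊕ Fin k) ℤ →ₐ[ℤ] MvPolynomial (Fin m ⊕ Fin k) ℂ).toRingHom) =
              ((aeval (Sum.elim θ z)) : MvPolynomial (Fin m ⊕ Fin k) ℤ →ₐ[ℤ] ℂ).toRingHom := by
            apply MvPolynomial.ringHom_ext
            · intro n
              simp
            · intro o
              simp only [RingHom.comp_apply, AlgHom.toRingHom_eq_coe, RingHom.coe_coe, aeval_X]
              rcases o with j | i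
              · rw [if_neg (hIl j), eval_C, hw]
                rfl
              · rw [Sum.elim_inr, hz]
                simp only
                by_cases hi : i ∈ J'
                · rw [if_pos ((hIr i).2 hi), if_pos hi, eval_X]
                · rw [if_neg (fun h => hi ((hIr i).1 h)), if_neg hi, eval_C, hw]
                  rfl
          exact congrArg (fun f => f R) e
        rw [e1]
        have hM : (MR d R : ℂ)⁻¹ ≠ 0 := inv_ne_zero (Nat.cast_ne_zero.2 (by have := MR_pos hR; omega))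
        have hP : ∏ i, (z i)⁻¹ ^ d ≠ 0 := Finset.prod_ne_zero_iff.2 fun i _ =>
          pow_ne_zero _ (inv_ne_zero (hz0 i))
        have hkey := key_sum hR.2.1 θ z hz0 (MR d R : ℂ)
        obtain ⟨x', hx''⟩ : ∃ x' : Fin (k + NE m k d) → ℂ,
            x' = Fin.append (fun i => (x (Sum.inr i))⁻¹) (fun _ => 0) := ⟨_, rfl⟩
        have hcomp : eval x' (aeval (fun s => if s ∈ J then
            (X s : MvPolynomial (Fin (k + NE m k d)) ℂ) else
              C (VV (KK0 k (NE m k d)) s (xp (ptT (rho d r R)) s))) (Pth d θ)) =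
            eval (fun s => if s ∈ J then x' s else
              VV (KK0 k (NE m k d)) s (xp (ptT (rho d r R)) s)) (Pth d θ) := by
          have e : ((eval x').comp ((aeval (fun s => if s ∈ J then
            (X s : MvPolynomial (Fin (k + NE m k d)) ℂ) else
              C (VV (KK0 k (NE m k d)) s (xp (ptT (rho d r R)) s))) :
                MvPolynomial (Fin (k + NE m k d)) ℂ →ₐ[ℂ] MvPolynomial (Fin (k + NE m k d)) ℂ)).toRingHom) =
              eval (fun s => if s ∈ J then x' s else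
                VV (KK0 k (NE m k d)) s (xp (ptT (rho d r R)) s)) := by
            apply MvPolynomial.ringHom_ext
            · intro c
              simp
            · intro s
              simp only [RingHom.comp_apply, AlgHom.toRingHom_eq_coe, RingHom.coe_coe, aeval_X, eval_X]
              split_ifs
              · rw [eval_X]
              · rw [eval_C]
          exact congrArg (fun f => f (Pth d θ)) e
        have hev : eval (fun s => if s ∈ J then x' s else
              VV (KK0 k (NE m k d)) s (xp (ptT (rho d r R)) s)) (Pth d θ) =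
            ∑ ν : EE m k d, (∏ j, θ j ^ (ν (Sum.inl j) : ℕ)) *
              (((coeff (exE ν) R : ℤ) : ℂ) / (MR d R : ℂ)) *
                ∏ i : Fin k, (z i)⁻¹ ^ (d - (ν (Sum.inr i) : ℕ)) := by
          unfold Pth
          rw [map_sum]
          refine Finset.sum_congr rfl fun ν _ => ?_
          simp only [map_mul, map_sub, map_one, map_prod, map_pow, eval_C, eval_X]
          have c2 : Fin.natAdd k (eE m k d ν) ∉ J := fun h => natAdd_not_mem _ _ _ (hJK h)
          rw [if_neg c2, hVr ν]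
          congr 1
          refine Finset.prod_congr rfl fun i _ => ?_
          congr 1
          rw [hz]
          simp only
          by_cases hi : i ∈ J'
          · rw [if_pos ((hmem i).1 hi), if_pos hi, hx'', Fin.append_left]
          · rw [if_neg (fun h => hi ((hmem i).2 h)), if_neg hi, hVl i]
        have hall : (MR d R : ℂ)⁻¹ * (∏ i, (z i)⁻¹ ^ d) * aeval (Sum.elim θ z) R = 0 := by
          rw [← hkey, ← hev, ← hcomp]
          have hcon' : aeval (fun s => if s ∈ J then
            (X s : MvPolynomial (Fin (k + NE m k d)) ℂ) else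
              C (VV (KK0 k (NE m k d)) s (xp (ptT (rho d r R)) s))) (Pth d θ) = 0 := by
            convert hcon
          rw [hcon', map_zero]
        exact (mul_eq_zero.1 hall).resolve_left (mul_ne_zero hM hP)
    obtain ⟨R', hR', hv, hR0⟩ := free_rel hR I w (by convert hzero)
    refine hmin J' hJne ⟨R', hR', fun i hi => hv _ ((hIr i).2 hi), ?_⟩
    rw [← hw]
    exact hR0

end Pool.Agent.Helper94.AXW
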