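import Pool.Agent.Helper94.AXW.U0

/-! # AXU-U1: one elimination step -/

namespace Pool.Agent.Helper94.AXW

open Complex Filter Topology Pool.Agent.Helper94.AXG Pool.Agent.Helper49.AXQ

theorem X_an {k : ℕ} (c : Crv k) (j : Fin k) (z : ℂ × ℂ) (hz : z.1 ∉ c.S) :
    AnalyticAt ℂ (fun z : ℂ × ℂ => c.X j z.1 z.2) z := by
  unfold Crv.X
  refine (ev2_analytic _ z).div ?_ (c.hD _ hz)
  exact ((c.D.differentiable).analyticAt z.1).comp (f := Prod.fst) analyticAt_fst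

theorem VX_an {k : ℕ} (c : Crv k) (K0 : Finset (Fin k)) (j : Fin k) (z : ℂ × ℂ) (hz : z.1 ∉ c.S) :
    AnalyticAt ℂ (fun z : ℂ × ℂ => VV K0 j (c.X j z.1 z.2)) z :=
  ((VV_differentiable K0 j).analyticAt _).comp (X_an c j z hz)

theorem evV_an {k : ℕ} (c : Crv k) (K0 : Finset (Fin k)) (P : MvPolynomial (Fin k) ℂ) (z : ℂ × ℂ)
    (hz : z.1 ∉ c.S) :
    AnalyticAt ℂ (fun z : ℂ × ℂ => MvPolynomial.eval (fun j => VV K0 j (c.X j z.1 z.2)) P) z := by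
  simp only [MvPolynomial.eval_eq]
  refine Finset.analyticAt_fun_sum _ fun d _ => analyticAt_const.mul ?_
  refine Finset.analyticAt_fun_prod _ fun j _ => AnalyticAt.pow ?_ _
  exact VX_an c K0 j z hz

theorem An_X {k : ℕ} (c : Crv k) {e N : ℕ} {g : Fin c.M.natDegree → ℂ → ℂ}
    (hP : Puis c e N g) (l : Fin c.M.natDegree) (j : Fin k) :
    An (fun s => c.X j (1 / s ^ e) (g l s / s ^ N)) := (Zt_X c hP l j (K := 1) le_rfl).1

theorem Pt_branch {k : ℕ} (c : Crv k) {e N : ℕ} {g : Fin c.M.natDegree → ℂ → ℂ}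
    (hP : Puis c e N g) (l : Fin c.M.natDegree) :
    ∀ᶠ s in 𝓝[≠] (0 : ℂ), c.Pt (1 / s ^ e) (g l s / s ^ N) := by
  filter_upwards [hP.2.2] with s hs
  exact ⟨hs.1, (hs.2.2 _).2 ⟨l, rfl⟩⟩

/-- one elimination step for mixed polynomials -/
theorem elim_stepU {k : ℕ} (c : Crv k) {e N : ℕ} {g : Fin c.M.natDegree → ℂ → ℂ} (hP : Puis c e N g)
    (l : Fin c.M.natDegree) (K0 J T : Finset (Fin k)) (hTJ : T ⊆ J) (hJK : J ⊆ K0) (K : ℕ) (hK : 1 ≤ K)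
    (hT : ∀ i ∈ T, ∃ h : ℂ → ℂ, Pl K (fun s => c.X i (1 / s ^ e) (g l s / s ^ N)) h)
    (hlow : ∀ j ∈ J, j ∉ T → ∃ N' : ℕ, N' < K ∧ ∃ b : ℝ, ∀ᶠ s in 𝓝[≠] (0 : ℂ),
      ‖c.X j (1 / s ^ e) (g l s / s ^ N)‖ ≤ b / ‖s‖ ^ N')
    (q : ℕ) (hq : 1 ≤ q) (a : Fin k → ℤ) (hnd : ND J q a)
    (H2 : ∀ i ∈ J, ∀ j ∈ J, ∀ (M M' : ℤ) (b : ℂ), M ≠ 0 → M' ≠ 0 →
      (∀ t y, c.Pt t y → M * c.X i t y - M' * c.X j t y = b) →
      ((M * a i - M' * a j : ℤ) : ℂ) / q = b)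
    (D : ℕ) (P : (T → Fin (D + 1)) → MvPolynomial (Fin k) ℂ)
    (hv : ∀ γ, ∀ i ∈ (P γ).vars, i ∈ K0 → i ∈ J ∧ i ∉ T)
    (hrel : ∀ t y, c.Pt t y →
      ∑ γ, MvPolynomial.eval (fun j => VV K0 j (c.X j t y)) (P γ) *
        ∏ i : T, U (c.X i t y) ^ (D - (γ i : ℕ)) = 0) :
    ∀ γ, ∀ t y, c.Pt t y → MvPolynomial.eval (fun j => VV K0 j (c.X j t y)) (P γ) = 0 := by
  classical
  choose h hh using fun i : T => hT i.1 i.2
  have hZt : ∀ γ, Zt K (fun s => MvPolynomial.eval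
      (fun j => VV K0 j (c.X j (1 / s ^ e) (g l s / s ^ N))) (P γ)) := by
    intro γ
    simp only [MvPolynomial.eval_eq]
    refine Zt_sum hK _ fun d hd => Zt_mul (Zt_const hK _) (Zt_prod hK _ fun j hj => Zt_pow hK ?_ _)
    have h1 : j ∈ (P γ).vars := (MvPolynomial.mem_vars_iff_mem_support j).2 ⟨d, hd, hj⟩
    by_cases hjK : j ∈ K0
    · obtain ⟨hj1, hj2⟩ := hv γ j h1 hjK
      obtain ⟨N', hN', b, hb⟩ := hlow j hj1 hj2
      simp only [VV_mem hjK]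
      exact Zt_U hN' (An_X c hP l j) hb
    · simp only [VV_not hjK]
      exact Zt_X c hP l j hK
  have hRl : Rl (T := T) (fun i s => c.X i (1 / s ^ e) (g l s / s ^ N)) D
      (fun γ s => MvPolynomial.eval
        (fun j => VV K0 j (c.X j (1 / s ^ e) (g l s / s ^ N))) (P γ)) := by
    unfold Rl
    filter_upwards [Pt_branch c hP l] with s hs
    exact hrel _ _ hs
  have hZe : ∀ γ, Ze (fun s => MvPolynomial.eval
      (fun j => VV K0 j (c.X j (1 / s ^ e) (g l s / s ^ N))) (P γ)) := by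
    by_contra hne
    push Not at hne
    obtain ⟨m, hm0, hm⟩ := local_AL hK _ h hh D _ hZt hRl hne
    refine no_matching hK _ h hh m hm0 hm q hq (fun i => a i) (hnd.sub T hTJ) ?_
    intro i j M M' b hM hM' hb
    refine H2 i (hTJ i.2) j (hTJ j.2) M M' b hM hM' fun t y hty => ?_
    have h1 := branch_all c hP l
      (fun z => (M : ℂ) * c.X i z.1 z.2 - (M' : ℂ) * c.X j z.1 z.2 - b)
      (fun z hz => ((analyticAt_const.mul (X_an c i z hz)).sub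
        (analyticAt_const.mul (X_an c j z hz))).sub analyticAt_const)
      (by filter_upwards [hb] with s hs; rw [hs, sub_self]) t y hty
    exact sub_eq_zero.1 h1
  intro γ t y hty
  exact branch_all c hP l
    (fun z => MvPolynomial.eval (fun j => VV K0 j (c.X j z.1 z.2)) (P γ))
    (fun z hz => evV_an c K0 (P γ) z hz) (hZe γ) t y hty

end Pool.Agent.Helper94.AXW
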